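import Mathlib

set_option autoImplicit false

namespace Pool.Agent.Results.MP_dd47c1_an.NoCriticalPoint

open Polynomial Finset Filter Topology

/-- The Taylor coefficient `a_m` of `f_{ν,n}`. -/
noncomputable def aCoeff (ν : ℝ) (n m : ℕ) : ℝ :=
  Real.Gamma (2 * m + ν + 1) /
    (m.factorial * Real.Gamma (m + ν + 1) * Real.Gamma (2 * m + ν - n + 1))

/-- The function `f_{ν,n}` on the real line. -/
noncomputable def besselF (ν : ℝ) (n : ℕ) (x : ℝ) : ℝ := ∑' m : ℕ, aCoeff ν n m * x ^ m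

/-- `f^{(l)}` vanishes at `c` to order exactly `m`. -/
def VanishesToOrder (f : ℝ → ℝ) (l : ℕ) (c : ℝ) (m : ℕ) : Prop :=
  (∀ j < m, iteratedDeriv (l + j) f c = 0) ∧ iteratedDeriv (l + m) f c ≠ 0

open Classical in
/-- The number `k` of critical zeros of `f^{(l)}` at a zero `c` of order `m`. -/
noncomputable def criticalNumber (f : ℝ → ℝ) (l : ℕ) (c : ℝ) (m : ℕ) : ℕ :=
  if iteratedDeriv (l - 1) f c = 0 then 0
  else if Even m then m / 2
  else if 0 < iteratedDeriv (l - 1) f c * iteratedDeriv (l + m) f c then (m + 1) / 2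
  else (m - 1) / 2

/-- `c` is a Fourier critical point of `f`. -/
def IsFourierCriticalPoint (f : ℝ → ℝ) (c : ℝ) : Prop :=
  ∃ l m : ℕ, 1 ≤ l ∧ 1 ≤ m ∧ VanishesToOrder f l c m ∧ 0 < criticalNumber f l c m

/-! ### Part 1: real rootedness -/

/-- the operator `c0 * (x d/dx) + c1` on polynomials -/
noncomputable def lop (c0 c1 : ℝ) (p : ℝ[X]) : ℝ[X] := C c0 * (X * derivative p) + C c1 * p

lemma lop_coeff (c0 c1 : ℝ) (p : ℝ[X]) (m : ℕ) :
    (lop c0 c1 p).coeff m = (c0 * m + c1) * p.coeff m := by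
  unfold lop
  rw [coeff_add, coeff_C_mul, coeff_C_mul]
  cases m with
  | zero => simp
  | succ k =>
    rw [coeff_X_mul, coeff_derivative]
    push_cast
    ring

lemma splits_of_real_roots (q : ℝ[X])
    (h : ∀ z : ℂ, (q.map (algebraMap ℝ ℂ)).eval z = 0 → q ≠ 0 → z.im = 0) : q.Splits := by
  apply Splits.of_splits_map (algebraMap ℝ ℂ) (IsAlgClosed.splits _)
  intro z hz
  rw [mem_roots'] at hz
  have hq : q ≠ 0 := by
    rintro rfl
    simp at hz
  have := h z hz.2 hq
  exact ⟨z.re, by apply Complex.ext <;> simp [this]⟩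

lemma eval_map_ne_zero {p : ℝ[X]} (hp : p.Splits) (hp0 : p ≠ 0) {z : ℂ} (hz : z.im ≠ 0) :
    (p.map (algebraMap ℝ ℂ)).eval z ≠ 0 := by
  intro h
  have := hp.mem_range_of_isRoot hp0 (i := algebraMap ℝ ℂ) (x := z) h
  obtain ⟨r, hr⟩ := this
  apply hz
  rw [← hr]
  simp

lemma logderiv {p : ℝ[X]} (hp : p.Splits) (hp0 : p ≠ 0) {z : ℂ} (hz : z.im ≠ 0) :
    (derivative (p.map (algebraMap ℝ ℂ))).eval z =
      (p.map (algebraMap ℝ ℂ)).eval z * (p.roots.map fun r : ℝ => 1 / (z - (r : ℂ))).sum := by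
  have h := (hp.map (algebraMap ℝ ℂ)).eval_derivative_eq_eval_mul_sum
    (eval_map_ne_zero hp hp0 hz)
  rw [h, hp.roots_map, Multiset.map_map]
  rfl

lemma lop_map_eval (c0 c1 : ℝ) (p : ℝ[X]) (z : ℂ) :
    ((lop c0 c1 p).map (algebraMap ℝ ℂ)).eval z =
      c0 * (z * (derivative (p.map (algebraMap ℝ ℂ))).eval z) +
        c1 * (p.map (algebraMap ℝ ℂ)).eval z := by
  unfold lop
  simp [Polynomial.derivative_map]

/-- real and imaginary parts of the logarithmic derivative -/
lemma sum_re (s : Multiset ℝ) (z : ℂ) :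
    ((s.map fun r : ℝ => 1 / (z - (r : ℂ))).sum).re =
      (s.map fun r : ℝ => (z.re - r) / Complex.normSq (z - r)).sum := by
  induction s using Multiset.induction_on with
  | empty => simp
  | cons a s ih =>
    rw [Multiset.map_cons, Multiset.sum_cons, Multiset.map_cons, Multiset.sum_cons,
      Complex.add_re, ih]
    congr 1
    rw [one_div, Complex.inv_re]
    simp

lemma sum_im (s : Multiset ℝ) (z : ℂ) :
    ((s.map fun r : ℝ => 1 / (z - (r : ℂ))).sum).im =
      (s.map fun r : ℝ => (-z.im) / Complex.normSq (z - r)).sum := by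
  induction s using Multiset.induction_on with
  | empty => simp
  | cons a s ih =>
    rw [Multiset.map_cons, Multiset.sum_cons, Multiset.map_cons, Multiset.sum_cons,
      Complex.add_im, ih]
    congr 1
    rw [one_div, Complex.inv_im]
    simp

lemma normSq_pos {z : ℂ} (hz : z.im ≠ 0) (r : ℝ) : 0 < Complex.normSq (z - r) := by
  rw [Complex.normSq_pos]
  intro h
  apply hz
  have := congrArg Complex.im h
  simpa using this

/-- If `p` has only negative real roots then `c0 x p' + c1 p` has only real roots. -/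
lemma lop_splits {p : ℝ[X]} (hp : p.Splits) (hneg : ∀ r ∈ p.roots, r < 0) (c0 c1 : ℝ)
    (hc0 : c0 ≠ 0) : (lop c0 c1 p).Splits := by
  by_cases hp0 : p = 0
  · subst hp0
    simp [lop]
  apply splits_of_real_roots
  intro z hz hq
  by_contra him
  rw [lop_map_eval, logderiv hp hp0 him] at hz
  have hne := eval_map_ne_zero hp hp0 him
  set S : ℂ := (p.roots.map fun r : ℝ => 1 / (z - (r : ℂ))).sum with hS
  have h1 : (c0 : ℂ) * (z * S) + c1 = 0 := by
    have : (p.map (algebraMap ℝ ℂ)).eval z * ((c0 : ℂ) * (z * S) + c1) = 0 := by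
      rw [← hz]; ring
    rcases mul_eq_zero.1 this with h | h
    · exact absurd h hne
    · exact h
  have h2 : (z * S).im = 0 := by
    have := congrArg Complex.im h1
    simp only [Complex.add_im, Complex.mul_im, Complex.ofReal_re, Complex.ofReal_im,
      Complex.zero_im] at this
    rw [Complex.mul_im]
    have h3 : c0 * (z.re * S.im + z.im * S.re) = 0 := by
      simpa using this
    rcases mul_eq_zero.1 h3 with h | h
    · exact absurd h hc0
    · exact h
  rw [Complex.mul_im, hS, sum_re, sum_im, ← Multiset.sum_map_mul_left,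
    ← Multiset.sum_map_mul_left, ← Multiset.sum_map_add] at h2
  have h3 : (p.roots.map fun r : ℝ => z.re * (-z.im / Complex.normSq (z - r)) +
      z.im * ((z.re - r) / Complex.normSq (z - r))) =
      (p.roots.map fun r : ℝ => z.im * (-r / Complex.normSq (z - r))) := by
    apply Multiset.map_congr rfl
    intro r _
    ring
  rw [h3, Multiset.sum_map_mul_left] at h2
  have h4 : (p.roots.map fun r : ℝ => (-r / Complex.normSq (z - (r : ℂ)))).sum = 0 := by
    rcases mul_eq_zero.1 h2 with h | h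
    · exact absurd h him
    · exact h
  have h5 : p.roots = 0 := by
    by_contra hne0
    obtain ⟨r, hr⟩ := Multiset.exists_mem_of_ne_zero hne0
    have : 0 < (p.roots.map fun r : ℝ => (-r / Complex.normSq (z - (r : ℂ)))).sum := by
      obtain ⟨t, ht⟩ := Multiset.exists_cons_of_mem hr
      rw [ht, Multiset.map_cons, Multiset.sum_cons]
      have ha : 0 < -r / Complex.normSq (z - (r : ℂ)) :=
        div_pos (by linarith [hneg r hr]) (normSq_pos him r)
      have hb : 0 ≤ (t.map fun r : ℝ => (-r / Complex.normSq (z - (r : ℂ)))).sum := by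
        apply Multiset.sum_nonneg
        intro x hx
        rw [Multiset.mem_map] at hx
        obtain ⟨y, hy, rfl⟩ := hx
        have : y ∈ p.roots := by rw [ht]; exact Multiset.mem_cons_of_mem hy
        exact (div_pos (by linarith [hneg y this]) (normSq_pos him y)).le
      linarith
    linarith
  have h6 : S = 0 := by rw [hS, h5]; simp
  rw [h6] at h1
  have hc1 : c1 = 0 := by
    have : (c1 : ℂ) = 0 := by simpa using h1
    exact_mod_cast this
  apply hq
  have hdeg : p.natDegree = 0 := by rw [hp.natDegree_eq_card_roots, h5]; simp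
  rw [natDegree_eq_zero] at hdeg
  obtain ⟨a, ha⟩ := hdeg
  unfold lop
  rw [← ha, hc1]
  simp

/-- The case of one positive root. -/
lemma lop_splits' {K : ℝ[X]} (hK : K.Splits) {δ x₀ p : ℝ} (hx₀ : x₀ < 0) (hp : 0 < p)
    (hroots : ∀ r ∈ K.roots, r < x₀ ∨ r = p) (hK0 : K.eval x₀ < 0)
    (hG : (lop 2 (-δ) K).eval x₀ < 0) : (lop 2 (-δ) K).Splits := by
  have hKne : K ≠ 0 := by
    rintro rfl
    simp at hK0
  apply splits_of_real_roots
  intro z hz hq
  by_contra him
  rw [lop_map_eval, logderiv hK hKne him] at hz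
  have hne := eval_map_ne_zero hK hKne him
  have hz0 : z ≠ 0 := by
    rintro rfl
    simp at him
  set S : ℂ := (K.roots.map fun r : ℝ => 1 / (z - (r : ℂ))).sum with hS
  have h1 : S = (δ / 2 : ℝ) / z := by
    have : (K.map (algebraMap ℝ ℂ)).eval z * ((2 : ℝ) * (z * S) + (-δ : ℝ)) = 0 := by
      rw [← hz]; ring
    rcases mul_eq_zero.1 this with h | h
    · exact absurd h hne
    · rw [eq_div_iff hz0]
      push_cast at h ⊢
      linear_combination (1/2) * h
  have hN : 0 < Complex.normSq z := by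
    rw [Complex.normSq_pos]; exact hz0
  have hre : (K.roots.map fun r : ℝ => (z.re - r) / Complex.normSq (z - (r : ℂ))).sum =
      (δ / 2) * z.re / Complex.normSq z := by
    rw [← sum_re, ← hS, h1, Complex.div_re]
    simp
  have him' : (K.roots.map fun r : ℝ => (-z.im) / Complex.normSq (z - (r : ℂ))).sum =
      (δ / 2) * (-z.im) / Complex.normSq z := by
    rw [← sum_im, ← hS, h1, Complex.div_im]
    simp
    ring
  -- sums of A(r) and A(r) r
  have hA : (K.roots.map fun r : ℝ => 1 / Complex.normSq (z - (r : ℂ))).sum =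
      (δ / 2) / Complex.normSq z := by
    have : (K.roots.map fun r : ℝ => (-z.im) / Complex.normSq (z - (r : ℂ))) =
        (K.roots.map fun r : ℝ => (-z.im) * (1 / Complex.normSq (z - (r : ℂ)))) := by
      apply Multiset.map_congr rfl
      intro r _
      ring
    rw [this, Multiset.sum_map_mul_left] at him'
    have h2 : (-z.im) ≠ 0 := neg_ne_zero.2 him
    have h3 : (-z.im) * ((K.roots.map fun r : ℝ => 1 / Complex.normSq (z - (r : ℂ))).sum -
        (δ / 2) / Complex.normSq z) = 0 := by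
      rw [mul_sub, him']; ring
    rcases mul_eq_zero.1 h3 with h | h
    · exact absurd h h2
    · linarith
  have hAr : (K.roots.map fun r : ℝ => r / Complex.normSq (z - (r : ℂ))).sum = 0 := by
    have : (K.roots.map fun r : ℝ => (z.re - r) / Complex.normSq (z - (r : ℂ))) =
        (K.roots.map fun r : ℝ => z.re * (1 / Complex.normSq (z - (r : ℂ))) -
          r / Complex.normSq (z - (r : ℂ))) := by
      apply Multiset.map_congr rfl
      intro r _
      ring
    rw [this, Multiset.sum_map_sub, Multiset.sum_map_mul_left, hA] at hre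
    have : z.re * (δ / 2 / Complex.normSq z) = (δ / 2) * z.re / Complex.normSq z := by ring
    linarith
  -- evaluation at x₀
  have hev := hK.eval_derivative_eq_eval_mul_sum (x := x₀) hK0.ne
  have hG' : 0 < x₀ * (2 * (K.roots.map fun r : ℝ => 1 / (x₀ - r)).sum) - δ := by
    unfold lop at hG
    simp only [eval_add, eval_mul, eval_C, eval_X] at hG
    rw [hev] at hG
    have : K.eval x₀ * (x₀ * (2 * (K.roots.map fun r : ℝ => 1 / (x₀ - r)).sum) - δ) < 0 := by
      calc _ = 2 * (x₀ * (eval x₀ K * (Multiset.map (fun z => 1 / (x₀ - z)) K.roots).sum)) +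
            -δ * eval x₀ K := by ring
        _ < 0 := hG
    by_contra hcon
    rw [not_lt] at hcon
    have := mul_nonneg_of_nonpos_of_nonpos hK0.le hcon
    linarith
  set D : ℝ := Complex.normSq (z - (x₀ : ℂ)) with hD
  have hD0 : 0 < D := normSq_pos him x₀
  have hDe : D = (z.re - x₀) ^ 2 + z.im ^ 2 := by
    rw [hD, Complex.normSq_apply]
    simp
    ring
  have hNe : Complex.normSq z = z.re ^ 2 + z.im ^ 2 := by
    rw [Complex.normSq_apply]; ring
  have hterm : ∀ r ∈ K.roots, 1 / (x₀ - r) =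
      D * (r * (r - p) / (Complex.normSq (z - (r : ℂ)) * x₀ * (x₀ - r) * (x₀ - p))) +
      ((D / x₀ - x₀ + 2 * z.re) * (1 / Complex.normSq (z - (r : ℂ))) +
        (D / (x₀ * (x₀ - p)) - 1) * (r / Complex.normSq (z - (r : ℂ)))) := by
    intro r hr
    have hr1 : x₀ - r ≠ 0 := by
      rcases hroots r hr with h | h
      · linarith
      · rw [h]; linarith
    have hr2 := normSq_pos him r
    have hr3 : Complex.normSq (z - (r : ℂ)) = (z.re - r) ^ 2 + z.im ^ 2 := by
      rw [Complex.normSq_apply]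
      simp
      ring
    have hr4 : x₀ - p ≠ 0 := by linarith
    have hx : x₀ ≠ 0 := hx₀.ne
    rw [hDe]
    rw [hr3] at hr2 ⊢
    have hr5 := hr2.ne'
    field_simp
    ring
  have hsum : (K.roots.map fun r : ℝ => 1 / (x₀ - r)).sum =
      D * (K.roots.map fun r : ℝ => r * (r - p) /
        (Complex.normSq (z - (r : ℂ)) * x₀ * (x₀ - r) * (x₀ - p))).sum +
      (D / x₀ - x₀ + 2 * z.re) * ((δ / 2) / Complex.normSq z) := by
    rw [Multiset.map_congr rfl hterm, Multiset.sum_map_add, Multiset.sum_map_add,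
      Multiset.sum_map_mul_left, Multiset.sum_map_mul_left, Multiset.sum_map_mul_left, hA, hAr]
    ring
  have hpos : 0 ≤ (K.roots.map fun r : ℝ => r * (r - p) /
        (Complex.normSq (z - (r : ℂ)) * x₀ * (x₀ - r) * (x₀ - p))).sum := by
    apply Multiset.sum_nonneg
    intro x hx
    rw [Multiset.mem_map] at hx
    obtain ⟨r, hr, rfl⟩ := hx
    have hn := normSq_pos him r
    rcases hroots r hr with h | h
    · apply div_nonneg
      · exact mul_nonneg_of_nonpos_of_nonpos (by linarith) (by linarith)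
      · have e1 : 0 < (-x₀) * (p - x₀) := mul_pos (by linarith) (by linarith)
        have e2 : 0 < x₀ - r := by linarith
        have : Complex.normSq (z - (r : ℂ)) * x₀ * (x₀ - r) * (x₀ - p) =
          Complex.normSq (z - (r : ℂ)) * ((x₀ - r) * ((-x₀) * (p - x₀))) := by ring
        rw [this]
        positivity
    · rw [h]; simp
  have hB : (D / x₀ - x₀ + 2 * z.re) * ((δ / 2) / Complex.normSq z) = (δ / 2) / x₀ := by
    have hx : x₀ ≠ 0 := hx₀.ne
    have : D / x₀ - x₀ + 2 * z.re = Complex.normSq z / x₀ := by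
      rw [hDe, hNe]
      field_simp
      ring
    rw [this]
    field_simp
  rw [hB] at hsum
  have h7 : (δ / 2) / x₀ ≤ (K.roots.map fun r : ℝ => 1 / (x₀ - r)).sum := by
    rw [hsum]
    have := mul_nonneg hD0.le hpos
    linarith
  have h8 : x₀ * (K.roots.map fun r : ℝ => 1 / (x₀ - r)).sum ≤ δ / 2 := by
    have := mul_le_mul_of_nonpos_left h7 hx₀.le
    calc _ ≤ x₀ * ((δ / 2) / x₀) := this
      _ = δ / 2 := by
        have hx : x₀ ≠ 0 := hx₀.ne
        field_simp
  linarith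


lemma eval_split (p : ℝ[X]) (x : ℝ) (d : ℕ) (hd : p.natDegree < d + 2) :
    p.eval x = (∑ i ∈ range d, p.coeff (i + 2) * x ^ (i + 2)) + p.coeff 1 * x + p.coeff 0 := by
  rw [eval_eq_sum_range' hd, sum_range_succ', sum_range_succ']
  simp

/-- abstract criterion -/
lemma criterion {K : ℝ[X]} (hK : K.Splits) {δ t : ℝ} (hδ0 : 0 < δ) (hδ : δ < 1) (ht : 0 < t)
    (h0 : K.coeff 0 < 0) (h1 : 0 < K.coeff 1) (hk : ∀ m, 1 ≤ m → 0 ≤ K.coeff m)
    (hA : (lop 2 (-δ) K).eval t < 2 * ((lop 2 (-δ) K).coeff 1 * t))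
    (hB : (lop 2 (-δ) K).coeff 1 * t < - K.coeff 0) : (lop 2 (-δ) K).Splits := by
  set P := lop 2 (-δ) K with hP
  set d := max K.natDegree P.natDegree with hd
  have hdK : K.natDegree < d + 2 := by omega
  have hdP : P.natDegree < d + 2 := by omega
  have hPc : ∀ m, P.coeff m = (2 * m - δ) * K.coeff m := by
    intro m
    rw [hP, lop_coeff]
    ring
  have hP0 : 0 < P.coeff 0 := by
    rw [hPc]
    push_cast
    nlinarith
  have hPK : ∀ m, 1 ≤ m → K.coeff m ≤ P.coeff m := by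
    intro m hm
    rw [hPc]
    have : (1 : ℝ) ≤ m := by exact_mod_cast hm
    have := hk m hm
    nlinarith
  have hS : (∑ i ∈ range d, P.coeff (i + 2) * t ^ (i + 2)) < P.coeff 1 * t - P.coeff 0 := by
    have := eval_split P t d hdP
    linarith
  have hKS : ∀ x : ℝ, |x| ≤ t → x ≤ 0 → K.eval x < 0 := by
    intro x hx hx0
    rw [eval_split K x d hdK]
    have e1 : (∑ i ∈ range d, K.coeff (i + 2) * x ^ (i + 2)) ≤
        ∑ i ∈ range d, P.coeff (i + 2) * t ^ (i + 2) := by
      apply sum_le_sum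
      intro i _
      have a1 := hPK (i + 2) (by omega)
      have a2 := hk (i + 2) (by omega)
      calc K.coeff (i + 2) * x ^ (i + 2) ≤ K.coeff (i + 2) * t ^ (i + 2) := by
            apply mul_le_mul_of_nonneg_left _ a2
            calc x ^ (i + 2) ≤ |x ^ (i + 2)| := le_abs_self _
              _ = |x| ^ (i + 2) := abs_pow _ _
              _ ≤ t ^ (i + 2) := by gcongr
        _ ≤ P.coeff (i + 2) * t ^ (i + 2) := by gcongr
    have e2 : K.coeff 1 * x ≤ 0 := mul_nonpos_of_nonneg_of_nonpos h1.le hx0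
    linarith
  have hPt : P.eval (-t) < 0 := by
    rw [eval_split P (-t) d hdP]
    have e1 : (∑ i ∈ range d, P.coeff (i + 2) * (-t) ^ (i + 2)) ≤
        ∑ i ∈ range d, P.coeff (i + 2) * t ^ (i + 2) := by
      apply sum_le_sum
      intro i _
      have a1 := hPK (i + 2) (by omega)
      have a2 := hk (i + 2) (by omega)
      apply mul_le_mul_of_nonneg_left _ (a2.trans a1)
      calc (-t) ^ (i + 2) ≤ |(-t) ^ (i + 2)| := le_abs_self _
        _ = t ^ (i + 2) := by rw [abs_pow, abs_neg, abs_of_pos ht]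
    linarith
  have hmono : ∀ x y : ℝ, 0 ≤ x → x < y → K.eval x < K.eval y := by
    intro x y hx hxy
    rw [eval_split K x d hdK, eval_split K y d hdK]
    have e1 : (∑ i ∈ range d, K.coeff (i + 2) * x ^ (i + 2)) ≤
        ∑ i ∈ range d, K.coeff (i + 2) * y ^ (i + 2) := by
      apply sum_le_sum
      intro i _
      have a2 := hk (i + 2) (by omega)
      gcongr
    have e2 : K.coeff 1 * x < K.coeff 1 * y := by gcongr
    linarith
  have hKne : K ≠ 0 := by
    rintro rfl
    simp at h0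
  have hroot : ∀ r ∈ K.roots, r < -t ∨ 0 < r := by
    intro r hr
    rw [mem_roots hKne] at hr
    by_contra hcon
    push Not at hcon
    have := hKS r (abs_le.2 ⟨by linarith, by linarith⟩) hcon.2
    rw [IsRoot.def] at hr
    linarith
  have hKt : K.eval (-t) < 0 := hKS (-t) (by rw [abs_neg, abs_of_pos ht]) (by linarith)
  by_cases hex : ∃ p ∈ K.roots, 0 < p
  · obtain ⟨p, hp, hp0⟩ := hex
    apply lop_splits' hK (x₀ := -t) (p := p) (by linarith) hp0 _ hKt hPt
    intro r hr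
    rcases hroot r hr with h | h
    · exact Or.inl h
    · right
      rw [mem_roots hKne, IsRoot.def] at hr hp
      rcases lt_trichotomy r p with h2 | h2 | h2
      · have := hmono r p h.le h2
        linarith
      · exact h2
      · have := hmono p r hp0.le h2
        linarith
  · push Not at hex
    apply lop_splits' hK (x₀ := -t) (p := 1) (by linarith) one_pos _ hKt hPt
    intro r hr
    rcases hroot r hr with h | h
    · exact Or.inl h
    · have := hex r hr
      linarith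

/-! ### Part 2: limits of real rooted polynomials -/

lemma second_deriv_prod (s : Multiset ℝ) (c : ℝ) (hc : ∀ r ∈ s, c - r ≠ 0) :
    (derivative (s.map fun r : ℝ => X - C r).prod).eval c =
      (s.map fun r : ℝ => X - C r).prod.eval c * (s.map fun r : ℝ => 1 / (c - r)).sum ∧
    (derivative (derivative (s.map fun r : ℝ => X - C r).prod)).eval c =
      (s.map fun r : ℝ => X - C r).prod.eval c *
        ((s.map fun r : ℝ => 1 / (c - r)).sum ^ 2 -
          (s.map fun r : ℝ => (1 / (c - r)) ^ 2).sum) := by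
  induction s using Multiset.induction_on with
  | empty => simp
  | cons a s ih =>
    obtain ⟨ih1, ih2⟩ := ih (fun r hr => hc r (Multiset.mem_cons_of_mem hr))
    have ha := hc a (Multiset.mem_cons_self a s)
    simp only [Multiset.map_cons, Multiset.prod_cons, Multiset.sum_cons, derivative_mul,
      derivative_sub, derivative_X, derivative_C, sub_zero, one_mul, derivative_add, eval_add,
      eval_mul, eval_sub, eval_X, eval_C, ih1, ih2]
    constructor
    · field_simp
    · field_simp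
      ring

lemma abs_one_add_le (u : ℝ) : |1 + u| ≤ Real.exp (u + u ^ 2) := by
  have h1 : 1 + (u + u ^ 2) ≤ Real.exp (u + u ^ 2) := by
    have := Real.add_one_le_exp (u + u ^ 2)
    linarith
  rw [abs_le]
  constructor
  · nlinarith [sq_nonneg (u + 1)]
  · nlinarith [sq_nonneg u]

lemma prod_bound (s : Multiset ℝ) (x : ℝ) :
    |(s.map fun ρ : ℝ => 1 + x * ρ).prod| ≤
      Real.exp (x * s.sum + x ^ 2 * (s.map fun ρ : ℝ => ρ ^ 2).sum) := by
  induction s using Multiset.induction_on with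
  | empty => simp
  | cons a s ih =>
    simp only [Multiset.map_cons, Multiset.prod_cons, Multiset.sum_cons, abs_mul]
    calc |1 + x * a| * |(s.map fun ρ : ℝ => 1 + x * ρ).prod|
        ≤ Real.exp (x * a + (x * a) ^ 2) *
          Real.exp (x * s.sum + x ^ 2 * (s.map fun ρ : ℝ => ρ ^ 2).sum) := by
          gcongr
          exact abs_one_add_le _
      _ = _ := by rw [← Real.exp_add]; congr 1; ring

lemma eval_shift (s : Multiset ℝ) (c x : ℝ) (hc : ∀ r ∈ s, c - r ≠ 0) :
    (s.map fun r : ℝ => X - C r).prod.eval (c + x) =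
      (s.map fun r : ℝ => X - C r).prod.eval c *
        ((s.map fun r : ℝ => 1 / (c - r)).map fun ρ : ℝ => 1 + x * ρ).prod := by
  induction s using Multiset.induction_on with
  | empty => simp
  | cons a s ih =>
    have ih1 := ih (fun r hr => hc r (Multiset.mem_cons_of_mem hr))
    have ha := hc a (Multiset.mem_cons_self a s)
    simp only [Multiset.map_cons, Multiset.prod_cons, eval_mul, eval_sub, eval_X, eval_C, ih1]
    field_simp
    ring

/-- For a real rooted polynomial and a point `c` which is not a root. -/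
lemma real_rooted_data {p : ℝ[X]} (hp : p.Splits) {c : ℝ} (hc : p.eval c ≠ 0) :
    ∃ s q : ℝ, 0 ≤ q ∧ (derivative p).eval c = p.eval c * s ∧
      (derivative (derivative p)).eval c = p.eval c * (s ^ 2 - q) ∧
      ∀ x : ℝ, |p.eval (c + x)| ≤ |p.eval c| * Real.exp (x * s + x ^ 2 * q) := by
  have hp0 : p ≠ 0 := by
    rintro rfl
    simp at hc
  have hroots : ∀ r ∈ p.roots, c - r ≠ 0 := by
    intro r hr h
    apply hc
    rw [mem_roots hp0, IsRoot.def] at hr
    have : c = r := by linarith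
    rw [this]
    exact hr
  have hprod := hp.eq_prod_roots
  have h2 := second_deriv_prod p.roots c hroots
  refine ⟨(p.roots.map fun r : ℝ => 1 / (c - r)).sum,
    (p.roots.map fun r : ℝ => (1 / (c - r)) ^ 2).sum, ?_, ?_, ?_, ?_⟩
  · apply Multiset.sum_nonneg
    intro x hx
    rw [Multiset.mem_map] at hx
    obtain ⟨r, _, rfl⟩ := hx
    positivity
  · conv_lhs => rw [hprod]
    conv_rhs => rw [hprod]
    rw [derivative_C_mul, eval_mul, h2.1, eval_mul]
    rw [← hprod]
    ring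
  · conv_lhs => rw [hprod]
    conv_rhs => rw [hprod]
    rw [derivative_C_mul, derivative_C_mul, eval_mul, h2.2, eval_mul]
    rw [← hprod]
    ring
  · intro x
    have h3 : p.eval (c + x) = p.eval c *
        ((p.roots.map fun r : ℝ => 1 / (c - r)).map fun ρ : ℝ => 1 + x * ρ).prod := by
      conv_lhs => rw [hprod]
      conv_rhs => rw [hprod]
      rw [eval_mul, eval_shift _ _ _ hroots, ← mul_assoc, eval_mul, eval_C, eval_C]
      rw [← hprod]
    rw [h3, abs_mul]
    have h4 := prod_bound (p.roots.map fun r : ℝ => 1 / (c - r)) x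
    have h5 : ((p.roots.map fun r : ℝ => 1 / (c - r)).map fun ρ : ℝ => ρ ^ 2) =
        (p.roots.map fun r : ℝ => (1 / (c - r)) ^ 2) := by
      rw [Multiset.map_map]
      rfl
    rw [h5] at h4
    exact mul_le_mul_of_nonneg_left h4 (abs_nonneg _)

/-! ### Part 3: power series -/

/-- bound on a coefficient sequence -/
def Bd (a : ℕ → ℝ) (A K : ℝ) : Prop := ∀ m, |a m| ≤ A * K ^ m / m.factorial

/-- the power series -/
noncomputable def F (a : ℕ → ℝ) (x : ℝ) : ℝ := ∑' m : ℕ, a m * x ^ m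

/-- coefficients of the derivative -/
def D (a : ℕ → ℝ) (m : ℕ) : ℝ := (m + 1) * a (m + 1)

lemma Bd.D {a : ℕ → ℝ} {A K : ℝ} (h : Bd a A K) : Bd (D a) (A * K) K := by
  intro m
  have h1 := h (m + 1)
  have hm : (0 : ℝ) < m + 1 := by positivity
  have hf : (0 : ℝ) < m.factorial := by exact_mod_cast m.factorial_pos
  unfold NoCriticalPoint.D
  rw [abs_mul, abs_of_pos hm]
  calc ((m : ℝ) + 1) * |a (m + 1)| ≤ (m + 1) * (A * K ^ (m + 1) / (m + 1).factorial) := by
        gcongr
    _ = A * K * K ^ m / m.factorial := by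
        rw [Nat.factorial_succ]
        push_cast
        field_simp
        ring

lemma Bd.summable_bound {A K R : ℝ} : Summable fun m : ℕ => A * K ^ m / m.factorial * R ^ m := by
  have := (Real.summable_pow_div_factorial (K * R)).mul_left A
  refine this.congr fun m => ?_
  rw [mul_pow]
  ring

lemma Bd.norm_le {a : ℕ → ℝ} {A K : ℝ} (h : Bd a A K) (x : ℝ) (m : ℕ) :
    ‖a m * x ^ m‖ ≤ A * K ^ m / m.factorial * |x| ^ m := by
  rw [norm_mul, norm_pow, Real.norm_eq_abs, Real.norm_eq_abs]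
  have := h m
  gcongr

lemma Bd.summable {a : ℕ → ℝ} {A K : ℝ} (h : Bd a A K) (x : ℝ) :
    Summable fun m : ℕ => a m * x ^ m :=
  Summable.of_norm_bounded Bd.summable_bound (h.norm_le x)

lemma Bd.hasDerivAt {a : ℕ → ℝ} {A K : ℝ} (h : Bd a A K) (x : ℝ) :
    HasDerivAt (F a) (F (NoCriticalPoint.D a) x) x := by
  set R := |x| + 1 with hR
  have hR0 : 0 ≤ R := by positivity
  have hx : x ∈ Metric.ball (0 : ℝ) R := by
    rw [Metric.mem_ball, dist_zero_right, Real.norm_eq_abs]
    linarith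
  have hu : Summable fun m : ℕ => A * K ^ m / m.factorial * (m * R ^ (m - 1)) := by
    rw [← summable_nat_add_iff 1]
    refine (Bd.summable_bound (A := A * K) (K := K) (R := R)).congr fun m => ?_
    have hf : (0 : ℝ) < m.factorial := by exact_mod_cast m.factorial_pos
    rw [Nat.factorial_succ, Nat.add_sub_cancel]
    push_cast
    field_simp
    ring
  have h0 : (0 : ℝ) ∈ Metric.ball (0 : ℝ) R := by
    rw [Metric.mem_ball, dist_self]
    positivity
  have key := hasDerivAt_tsum_of_isPreconnected (g := fun m y => a m * y ^ m)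
    (g' := fun m y => a m * (m * y ^ (m - 1))) (y₀ := 0) (y := x) hu Metric.isOpen_ball
    (convex_ball (0 : ℝ) R).isPreconnected
    (fun m y _ => (hasDerivAt_pow m y).const_mul (a m))
    (fun m y hy => by
      rw [Metric.mem_ball, dist_zero_right] at hy
      rw [norm_mul, norm_mul, norm_pow, Real.norm_eq_abs, Real.norm_natCast]
      have h7 := h m
      have h8 : 0 ≤ A * K ^ m / m.factorial := (abs_nonneg _).trans h7
      exact mul_le_mul h7 (mul_le_mul_of_nonneg_left
        (pow_le_pow_left₀ (norm_nonneg _) hy.le _) (Nat.cast_nonneg _)) (by positivity) h8)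
    h0 (h.summable 0) hx
  have e : (∑' m : ℕ, a m * (m * x ^ (m - 1))) = F (NoCriticalPoint.D a) x := by
    have hs : Summable fun m : ℕ => a m * (m * x ^ (m - 1)) := by
      refine Summable.of_norm_bounded hu fun m => ?_
      rw [norm_mul, norm_mul, norm_pow, Real.norm_eq_abs, Real.norm_natCast]
      have h7 := h m
      have h8 : 0 ≤ A * K ^ m / m.factorial := (abs_nonneg _).trans h7
      have h9 : ‖x‖ ≤ R := by rw [Real.norm_eq_abs]; linarith
      exact mul_le_mul h7 (mul_le_mul_of_nonneg_left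
        (pow_le_pow_left₀ (norm_nonneg _) h9 _) (Nat.cast_nonneg _)) (by positivity) h8
    rw [hs.tsum_eq_zero_add]
    simp only [Nat.cast_zero, zero_mul, mul_zero, zero_add, Nat.add_sub_cancel]
    unfold F NoCriticalPoint.D
    refine tsum_congr fun m => ?_
    push_cast
    ring
  rw [e] at key
  exact key

lemma iteratedDeriv_F (l : ℕ) : ∀ (a : ℕ → ℝ) (A K : ℝ), Bd a A K →
    iteratedDeriv l (F a) = F (D^[l] a) := by
  induction l with
  | zero => intro a A K _; simp
  | succ l ih =>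
    intro a A K h
    rw [iteratedDeriv_succ']
    have : deriv (F a) = F (D a) := funext fun x => (h.hasDerivAt x).deriv
    rw [this, ih (D a) (A * K) K h.D]
    rfl

/-- `a` is a limit of coefficient sequences of real rooted polynomials -/
def Lim (a : ℕ → ℝ) : Prop :=
  ∃ p : ℕ → ℝ[X], (∀ N, (p N).Splits) ∧ ∃ A K : ℝ, (∀ N, Bd (p N).coeff A K) ∧
    ∀ m, Tendsto (fun N => (p N).coeff m) atTop (𝓝 (a m))

lemma Lim.bd {a : ℕ → ℝ} (h : Lim a) : ∃ A K : ℝ, Bd a A K := by
  obtain ⟨p, _, A, K, hb, hl⟩ := h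
  exact ⟨A, K, fun m => le_of_tendsto' (hl m).abs fun N => hb N m⟩

lemma splits_derivative {p : ℝ[X]} (hp : p.Splits) : (derivative p).Splits := by
  rw [splits_iff_card_roots] at hp ⊢
  have h1 := card_roots_le_derivative p
  have h2 := natDegree_derivative_le p
  have h3 := card_roots' (derivative p)
  omega

lemma coeff_derivative_eq (p : ℝ[X]) : (derivative p).coeff = D p.coeff := by
  funext m
  rw [coeff_derivative]
  unfold D
  ring

lemma Lim.D {a : ℕ → ℝ} (h : Lim a) : Lim (D a) := by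
  obtain ⟨p, hs, A, K, hb, hl⟩ := h
  refine ⟨fun N => derivative (p N), fun N => splits_derivative (hs N), A * K, K, fun N => ?_,
    fun m => ?_⟩
  · rw [coeff_derivative_eq]
    exact (hb N).D
  · simp_rw [coeff_derivative_eq]
    unfold NoCriticalPoint.D
    exact (hl (m + 1)).const_mul _

lemma F_coeff (p : ℝ[X]) (x : ℝ) : F p.coeff x = p.eval x := by
  unfold F
  rw [eval_eq_sum_range, tsum_eq_sum (s := range (p.natDegree + 1))]
  intro m hm
  rw [mem_range, not_lt] at hm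
  rw [coeff_eq_zero_of_natDegree_lt (by omega), zero_mul]

lemma tendsto_F {a : ℕ → ℝ} {b : ℕ → ℕ → ℝ} {A K : ℝ} (hb : ∀ N, Bd (b N) A K)
    (hl : ∀ m, Tendsto (fun N => b N m) atTop (𝓝 (a m))) (x : ℝ) :
    Tendsto (fun N => F (b N) x) atTop (𝓝 (F a x)) := by
  unfold F
  exact tendsto_tsum_of_dominated_convergence
    (bound := fun m => A * K ^ m / m.factorial * |x| ^ m) Bd.summable_bound
    (fun m => (hl m).mul_const _) (Eventually.of_forall fun N m => (hb N).norm_le x m)

lemma main_limit {a : ℕ → ℝ} (h : Lim a) (hpos : ∀ m, 0 < a m) {c : ℝ} (hc : F a c ≠ 0)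
    (hc1 : F (D a) c = 0) : F a c * F (D (D a)) c < 0 := by
  obtain ⟨A', K', hbd⟩ := h.bd
  obtain ⟨p, hs, A, K, hb, hl⟩ := h
  have t0 : ∀ x, Tendsto (fun N => (p N).eval x) atTop (𝓝 (F a x)) := by
    intro x
    simp_rw [← F_coeff]
    exact tendsto_F hb hl x
  have t1 : Tendsto (fun N => (derivative (p N)).eval c) atTop (𝓝 0) := by
    rw [← hc1]
    simp_rw [← F_coeff, coeff_derivative_eq]
    refine tendsto_F (fun N => (hb N).D) (fun m => ?_) c
    unfold D
    exact (hl (m + 1)).const_mul _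
  have t2 : Tendsto (fun N => (derivative (derivative (p N))).eval c) atTop
      (𝓝 (F (D (D a)) c)) := by
    simp_rw [← F_coeff, coeff_derivative_eq]
    refine tendsto_F (fun N => (hb N).D.D) (fun m => ?_) c
    unfold D
    exact ((hl (m + 1 + 1)).const_mul _).const_mul _
  have hev : ∀ᶠ N in atTop, (p N).eval c ≠ 0 := (t0 c).eventually_ne hc
  have hdata : ∀ N, ∃ s q : ℝ, (p N).eval c ≠ 0 → 0 ≤ q ∧
      (derivative (p N)).eval c = (p N).eval c * s ∧
      (derivative (derivative (p N))).eval c = (p N).eval c * (s ^ 2 - q) ∧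
      ∀ x : ℝ, |(p N).eval (c + x)| ≤ |(p N).eval c| * Real.exp (x * s + x ^ 2 * q) := by
    intro N
    by_cases hN : (p N).eval c = 0
    · exact ⟨0, 0, fun h => absurd hN h⟩
    · obtain ⟨s, q, hsq⟩ := real_rooted_data (hs N) hN
      exact ⟨s, q, fun _ => hsq⟩
  choose s q hsq using hdata
  have ts : Tendsto s atTop (𝓝 0) := by
    have : Tendsto (fun N => (derivative (p N)).eval c / (p N).eval c) atTop (𝓝 (0 / F a c)) :=
      t1.div (t0 c) hc
    rw [zero_div] at this
    refine this.congr' ?_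
    filter_upwards [hev] with N hN
    rw [(hsq N hN).2.1]
    field_simp
  have tq : Tendsto q atTop (𝓝 (0 ^ 2 - F (D (D a)) c / F a c)) := by
    have : Tendsto (fun N => s N ^ 2 - (derivative (derivative (p N))).eval c / (p N).eval c)
      atTop (𝓝 (0 ^ 2 - F (D (D a)) c / F a c)) := (ts.pow 2).sub (t2.div (t0 c) hc)
    refine this.congr' ?_
    filter_upwards [hev] with N hN
    rw [(hsq N hN).2.2.1]
    field_simp
    ring
  have hq0 : 0 ≤ (0 : ℝ) ^ 2 - F (D (D a)) c / F a c := by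
    apply ge_of_tendsto tq
    filter_upwards [hev] with N hN
    exact (hsq N hN).1
  have hle : F (D (D a)) c / F a c ≤ 0 := by linarith
  by_contra hcon
  rw [not_lt] at hcon
  have hsqc : 0 < F a c ^ 2 := by positivity
  have hge : 0 ≤ F (D (D a)) c / F a c := by
    have : F (D (D a)) c / F a c = (F a c * F (D (D a)) c) / F a c ^ 2 := by
      field_simp
    rw [this]
    positivity
  have hz : F (D (D a)) c / F a c = 0 := le_antisymm hle hge
  rw [hz] at tq
  have tq' : Tendsto q atTop (𝓝 0) := by simpa using tq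
  -- the function is bounded
  have hbound : ∀ x : ℝ, |F a (c + x)| ≤ |F a c| := by
    intro x
    have e0 : Tendsto (fun N => x * s N + x ^ 2 * q N) atTop (𝓝 (x * 0 + x ^ 2 * 0)) :=
      (ts.const_mul x).add (tq'.const_mul (x ^ 2))
    have e1 : Tendsto (fun N => |(p N).eval c| * Real.exp (x * s N + x ^ 2 * q N)) atTop
        (𝓝 (|F a c| * Real.exp (x * 0 + x ^ 2 * 0))) :=
      (t0 c).abs.mul (e0.rexp)
    have e2 : |F a (c + x)| ≤ |F a c| * Real.exp (x * 0 + x ^ 2 * 0) := by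
      apply le_of_tendsto_of_tendsto (t0 (c + x)).abs e1
      filter_upwards [hev] with N hN
      exact (hsq N hN).2.2.2 x
    simpa using e2
  -- but it grows
  have hgrow : ∀ y : ℝ, 0 ≤ y → a 1 * y ≤ F a y := by
    intro y hy
    have := (hbd.summable y).sum_le_tsum {1} (fun m _ => mul_nonneg (hpos m).le (pow_nonneg hy m))
    rw [sum_singleton, pow_one] at this
    exact this
  have h1 := hpos 1
  set y : ℝ := (|F a c| + 1) / a 1 with hy
  have hy0 : 0 ≤ y := by positivity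
  have h2 := hbound (y - c)
  rw [add_sub_cancel] at h2
  have h3 := hgrow y hy0
  have h4 : a 1 * y = |F a c| + 1 := by rw [hy]; field_simp
  have h5 := le_abs_self (F a y)
  linarith

lemma Lim.iter {a : ℕ → ℝ} (h : Lim a) (hpos : ∀ m, 0 < a m) (l : ℕ) :
    Lim (NoCriticalPoint.D^[l] a) ∧ ∀ m, 0 < (NoCriticalPoint.D^[l] a) m := by
  induction l generalizing a with
  | zero => exact ⟨h, hpos⟩
  | succ l ih =>
    rw [Function.iterate_succ_apply]
    apply ih h.D
    intro m
    unfold NoCriticalPoint.D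
    have := hpos (m + 1)
    positivity


theorem no_critical {a : ℕ → ℝ} (h : Lim a) (hpos : ∀ m, 0 < a m) (c : ℝ) :
    ¬ IsFourierCriticalPoint (F a) c := by
  rintro ⟨l, m, hl, hm, ⟨hv1, hv2⟩, hk⟩
  obtain ⟨A, K, hb⟩ := h.bd
  obtain ⟨k, rfl⟩ : ∃ k, l = k + 1 := ⟨l - 1, by omega⟩
  have hit : ∀ j, iteratedDeriv j (F a) = F (D^[j] a) := fun j => iteratedDeriv_F j a A K hb
  have h0 := (h.iter hpos k).2
  have hL := (h.iter hpos k).1
  have e1 : D (D^[k] a) = D^[k + 1] a := (Function.iterate_succ_apply' D k a).symm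
  have e2 : D (D (D^[k] a)) = D^[k + 2] a := by
    rw [e1]; exact (Function.iterate_succ_apply' D (k + 1) a).symm
  by_cases hz : iteratedDeriv k (F a) c = 0
  · unfold criticalNumber at hk
    rw [Nat.add_sub_cancel, if_pos hz] at hk
    omega
  · have hz1 : iteratedDeriv (k + 1) (F a) c = 0 := by simpa using hv1 0 (by omega)
    have key : iteratedDeriv k (F a) c * iteratedDeriv (k + 2) (F a) c < 0 := by
      rw [hit, hit, ← e2]
      rw [hit] at hz hz1
      rw [← e1] at hz1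
      exact main_limit hL h0 hz hz1
    have hm1 : m = 1 := by
      by_contra hne
      have := hv1 1 (by omega)
      have h3 : k + 1 + 1 = k + 2 := rfl
      rw [h3] at this
      rw [this, mul_zero] at key
      exact lt_irrefl _ key
    subst hm1
    unfold criticalNumber at hk
    have h3 : k + 1 + 1 = k + 2 := rfl
    rw [Nat.add_sub_cancel, if_neg hz, if_neg (by decide), h3, if_neg (not_lt.2 key.le)] at hk
    omega

/-! ### Part 4: the approximating polynomials -/

/-- iterated application of the operators -/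
noncomputable def lops (u v : ℕ → ℝ) : ℕ → ℝ[X] → ℝ[X]
  | 0, q => q
  | k + 1, q => lop (u k) (v k) (lops u v k q)

lemma lops_coeff (u v : ℕ → ℝ) (k : ℕ) (q : ℝ[X]) (m : ℕ) :
    (lops u v k q).coeff m = (∏ i ∈ range k, (u i * m + v i)) * q.coeff m := by
  induction k with
  | zero => simp [lops]
  | succ k ih =>
    rw [lops, lop_coeff, ih, prod_range_succ]
    ring

lemma roots_neg {q : ℝ[X]} (h0 : 0 < q.coeff 0) (h : ∀ m, 0 ≤ q.coeff m) :
    ∀ r ∈ q.roots, r < 0 := by
  intro r hr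
  by_contra hcon
  rw [not_lt] at hcon
  rw [mem_roots', IsRoot.def, eval_eq_sum_range, sum_range_succ'] at hr
  have h1 : 0 ≤ ∑ k ∈ range q.natDegree, q.coeff (k + 1) * r ^ (k + 1) :=
    sum_nonneg fun k _ => mul_nonneg (h _) (pow_nonneg hcon _)
  have h2 := hr.2
  rw [pow_zero, mul_one] at h2
  linarith

lemma lops_good (u v : ℕ → ℝ) (k : ℕ) (q : ℝ[X]) (hu : ∀ i < k, 0 < u i) (hv : ∀ i < k, 0 < v i)
    (hq : q.Splits) (h0 : 0 < q.coeff 0) (h : ∀ m, 0 ≤ q.coeff m) :
    (lops u v k q).Splits ∧ 0 < (lops u v k q).coeff 0 ∧ ∀ m, 0 ≤ (lops u v k q).coeff m := by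
  induction k with
  | zero => exact ⟨hq, h0, h⟩
  | succ k ih =>
    obtain ⟨i1, i2, i3⟩ := ih (fun i hi => hu i (by omega)) (fun i hi => hv i (by omega))
    have h1 := hu k (by omega)
    have h2 := hv k (by omega)
    rw [lops]
    refine ⟨lop_splits i1 (roots_neg i2 i3) _ _ h1.ne', ?_, fun m => ?_⟩
    · rw [lop_coeff]
      push_cast
      have : 0 < u k * 0 + v k := by linarith
      positivity
    · rw [lop_coeff]
      have := i3 m
      positivity

/-- the starting polynomial `g (1 + X / N^2)^N` -/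
noncomputable def basePoly (g : ℝ) (N : ℕ) : ℝ[X] :=
  C g * ((1 + X) ^ N).comp (C ((1 / (N : ℝ)) ^ 2) * X)

lemma basePoly_coeff (g : ℝ) (N m : ℕ) :
    (basePoly g N).coeff m = g * (N.choose m * ((1 / (N : ℝ)) ^ 2) ^ m) := by
  unfold basePoly
  rw [coeff_C_mul, comp_C_mul_X_coeff, coeff_one_add_X_pow]

lemma basePoly_splits (g : ℝ) (N : ℕ) : (basePoly g N).Splits := by
  unfold basePoly
  apply Splits.mul (Splits.C _)
  apply Splits.comp_of_natDegree_le_one
  · apply Splits.pow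
    have : (1 + X : ℝ[X]) = X - C (-1) := by simp [add_comm]
    rw [this]
    exact Splits.X_sub_C _
  · exact (natDegree_C_mul_le _ _).trans natDegree_X_le

/-- telescoping -/
lemma tele (x : ℝ) (hx : 0 < x) (m : ℕ) (N : ℕ) :
    (∏ i ∈ range N, ((m : ℝ) / (x + i) + 1)) * ∏ i ∈ range m, (x + i) =
      ∏ i ∈ range m, (x + N + i) := by
  induction N with
  | zero => simp
  | succ N ih =>
    rw [prod_range_succ, mul_right_comm, ih]
    have h1 : 0 < x + N := by positivity
    have h2 : (∏ i ∈ range m, (x + N + i)) * (x + N + m) =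
        (x + N) * ∏ i ∈ range m, (x + ((N + 1 : ℕ) : ℝ) + i) := by
      rw [← prod_range_succ, prod_range_succ']
      rw [mul_comm]
      congr 1
      · simp
      · apply prod_congr rfl
        intro i _
        push_cast
        ring
    have h3 : (m : ℝ) / (x + N) + 1 = (x + N + m) / (x + N) := by
      field_simp
      ring
    rw [h3, mul_div_assoc', h2]
    field_simp

lemma Gamma_prod (y : ℝ) (k : ℕ) (h : ∀ i < k, y + i ≠ 0) :
    Real.Gamma (y + k) = Real.Gamma y * ∏ i ∈ range k, (y + i) := by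
  induction k with
  | zero => simp
  | succ k ih =>
    have h1 := ih fun i hi => h i (by omega)
    have h2 : y + ((k + 1 : ℕ) : ℝ) = (y + k) + 1 := by push_cast; ring
    rw [h2, Real.Gamma_add_one (h k (by omega)), h1, prod_range_succ]
    ring

/-! ### Part 5: coefficients -/

/-- first family of polynomials, a polynomial version of `∏_{j<n-2} (2θ+ν-j) f_{ν,0}` -/
noncomputable def Hp (n : ℕ) (ν : ℝ) (N : ℕ) : ℝ[X] :=
  lops (fun _ => 2) (fun j => ν - j) (n - 2)
    (lops (fun i => 1 / (ν + 1 + i)) (fun _ => 1) (N + 1) (basePoly (Real.Gamma (ν + 1))⁻¹ N))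

noncomputable def Kp (n : ℕ) (ν : ℝ) (N : ℕ) : ℝ[X] :=
  lop 2 (-(1 + (n - 2 - ν))) (Hp n ν N)

noncomputable def Pp (n : ℕ) (ν : ℝ) (N : ℕ) : ℝ[X] :=
  lop 2 (-((n : ℝ) - 2 - ν)) (Kp n ν N)

lemma Hp_coeff (n : ℕ) (ν : ℝ) (N m : ℕ) :
    (Hp n ν N).coeff m = (∏ j ∈ range (n - 2), (2 * (m : ℝ) + (ν - j))) *
      ((∏ i ∈ range (N + 1), ((m : ℝ) / (ν + 1 + i) + 1)) *
        ((Real.Gamma (ν + 1))⁻¹ * (N.choose m * ((1 / (N : ℝ)) ^ 2) ^ m))) := by
  unfold Hp
  rw [lops_coeff, lops_coeff, basePoly_coeff]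
  congr 2
  apply prod_congr rfl
  intro i _
  ring

/-- the product `∏_{j<n} (2m+ν-j)` -/
noncomputable def Q (n : ℕ) (ν : ℝ) (m : ℕ) : ℝ := ∏ j ∈ range n, (2 * (m : ℝ) + ν - j)

lemma Q_eq {n : ℕ} (hn : 2 ≤ n) (ν : ℝ) (m : ℕ) :
    Q n ν m = (2 * m - (n - 2 - ν)) * ((2 * m - (1 + (n - 2 - ν))) *
      ∏ j ∈ range (n - 2), (2 * (m : ℝ) + (ν - j))) := by
  obtain ⟨k, rfl⟩ : ∃ k, n = k + 2 := ⟨n - 2, by omega⟩
  unfold Q
  rw [prod_range_succ, prod_range_succ, Nat.add_sub_cancel]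
  have : (∏ x ∈ range k, (2 * (m : ℝ) + ν - x)) = ∏ j ∈ range k, (2 * (m : ℝ) + (ν - j)) := by
    apply prod_congr rfl
    intro i _
    ring
  rw [this]
  push_cast
  ring

lemma Pp_coeff {n : ℕ} (hn : 2 ≤ n) (ν : ℝ) (N m : ℕ) :
    (Pp n ν N).coeff m = Q n ν m *
      ((∏ i ∈ range (N + 1), ((m : ℝ) / (ν + 1 + i) + 1)) *
        ((Real.Gamma (ν + 1))⁻¹ * (N.choose m * ((1 / (N : ℝ)) ^ 2) ^ m))) := by
  unfold Pp Kp
  rw [lop_coeff, lop_coeff, Hp_coeff, Q_eq hn]
  ring

/-- the second factor -/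
noncomputable def w (ν : ℝ) (N m : ℕ) : ℝ :=
  ∏ i ∈ range m, ((ν + 1 + ((N + 1 : ℕ) : ℝ) + i) / (N * (ν + 1 + i)))

lemma w_eq {ν : ℝ} (hν : -1 < ν) {N : ℕ} (hN : 1 ≤ N) (m : ℕ) :
    (∏ i ∈ range (N + 1), ((m : ℝ) / (ν + 1 + i) + 1)) * (1 / (N : ℝ)) ^ m = w ν N m := by
  have h1 := tele (ν + 1) (by linarith) m (N + 1)
  have hN0 : (0 : ℝ) < N := by exact_mod_cast hN
  have h2 : (0 : ℝ) < ∏ i ∈ range m, (ν + 1 + i) := by
    apply prod_pos
    intro i _
    have : (0 : ℝ) ≤ i := Nat.cast_nonneg i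
    linarith
  unfold w
  rw [prod_div_distrib, ← h1, prod_mul_distrib, prod_const, card_range]
  have h3 : (N : ℝ) ^ m ≠ 0 := by positivity
  rw [one_div_pow]
  field_simp

lemma Pp_coeff' {n : ℕ} (hn : 2 ≤ n) {ν : ℝ} (hν : -1 < ν) {N : ℕ} (hN : 1 ≤ N) (m : ℕ) :
    (Pp n ν N).coeff m = Q n ν m * (Real.Gamma (ν + 1))⁻¹ *
      (N.choose m * (1 / (N : ℝ)) ^ m) * w ν N m := by
  rw [Pp_coeff hn, ← w_eq hν hN, ← pow_mul, Nat.mul_comm 2 m, pow_mul, pow_two]
  ring

lemma aCoeff_eq {n : ℕ} {ν : ℝ} (hν : -1 < ν)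
    (hne : ∀ (m i : ℕ), i < n → 2 * (m : ℝ) + ν - n + 1 + i ≠ 0)
    (hG : ∀ m : ℕ, Real.Gamma (2 * (m : ℝ) + ν - n + 1) ≠ 0) (m : ℕ) :
    aCoeff ν n m = Q n ν m * (Real.Gamma (ν + 1))⁻¹ * (1 / m.factorial) *
      ∏ i ∈ range m, (1 / (ν + 1 + i)) := by
  have h1 := Gamma_prod (2 * (m : ℝ) + ν - n + 1) n (hne m)
  have h2 : 2 * (m : ℝ) + ν - n + 1 + n = 2 * m + ν + 1 := by ring
  rw [h2] at h1
  have h3 : (∏ i ∈ range n, (2 * (m : ℝ) + ν - n + 1 + i)) = Q n ν m := by
    unfold Q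
    rw [← prod_range_reflect]
    apply prod_congr rfl
    intro i hi
    rw [mem_range] at hi
    rw [Nat.cast_sub (by omega), Nat.cast_sub (by omega)]
    push_cast
    ring
  rw [h3] at h1
  have h4 := Gamma_prod (ν + 1) m (fun i _ => by
    have : (0 : ℝ) ≤ i := Nat.cast_nonneg i
    linarith)
  have h5 : ν + 1 + (m : ℝ) = m + ν + 1 := by ring
  rw [h5] at h4
  have h6 : Real.Gamma (ν + 1) ≠ 0 := (Real.Gamma_pos_of_pos (by linarith)).ne'
  have h7 : (0 : ℝ) < ∏ i ∈ range m, (ν + 1 + i) := by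
    apply prod_pos
    intro i _
    have : (0 : ℝ) ≤ i := Nat.cast_nonneg i
    linarith
  have h8 := hG m
  have h9 : (0 : ℝ) < m.factorial := by exact_mod_cast m.factorial_pos
  unfold aCoeff
  rw [h1, h4]
  have h10 : (∏ i ∈ range m, (1 / (ν + 1 + (i : ℝ)))) = 1 / ∏ i ∈ range m, (ν + 1 + i) := by
    simp
  rw [h10]
  field_simp

lemma tendsto_w {ν : ℝ} (hν : -1 < ν) (m : ℕ) :
    Tendsto (fun N => w ν N m) atTop (𝓝 (∏ i ∈ range m, (1 / (ν + 1 + i)))) := by
  unfold w
  apply tendsto_finsetProd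
  intro i _
  have hi : (0 : ℝ) ≤ i := Nat.cast_nonneg i
  have h0 : ν + 1 + (i : ℝ) ≠ 0 := by
    have : 0 < ν + 1 + (i : ℝ) := by linarith
    exact this.ne'
  have h1 : Tendsto (fun N : ℕ => (1 + (ν + 2 + i) * (1 / (N : ℝ))) * (1 / (ν + 1 + i))) atTop
      (𝓝 ((1 + (ν + 2 + i) * 0) * (1 / (ν + 1 + i)))) :=
    ((tendsto_one_div_atTop_nhds_zero_nat.const_mul _).const_add _).mul_const _
  rw [mul_zero, add_zero, one_mul] at h1
  refine h1.congr' ?_
  filter_upwards [eventually_ge_atTop 1] with N hN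
  have hN0 : (0 : ℝ) < N := by exact_mod_cast hN
  push_cast
  field_simp
  ring

lemma tendsto_choose (m : ℕ) :
    Tendsto (fun N : ℕ => (N.choose m : ℝ) * (1 / (N : ℝ)) ^ m) atTop (𝓝 (1 / m.factorial)) := by
  have h : Tendsto (fun N : ℕ => (N : ℝ) * (1 / (N : ℝ))) atTop (𝓝 1) := by
    refine tendsto_const_nhds.congr' ?_
    filter_upwards [eventually_ge_atTop 1] with N hN
    have hN0 : (0 : ℝ) < N := by exact_mod_cast hN
    field_simp
  have := ProbabilityTheory.tendsto_choose_mul_pow_atTop m h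
  simpa using this

lemma tendsto_Pp {n : ℕ} (hn : 2 ≤ n) {ν : ℝ} (hν : -1 < ν)
    (hne : ∀ (m i : ℕ), i < n → 2 * (m : ℝ) + ν - n + 1 + i ≠ 0)
    (hG : ∀ m : ℕ, Real.Gamma (2 * (m : ℝ) + ν - n + 1) ≠ 0) (m : ℕ) :
    Tendsto (fun N => (Pp n ν N).coeff m) atTop (𝓝 (aCoeff ν n m)) := by
  rw [aCoeff_eq hν hne hG]
  refine (((tendsto_choose m).const_mul (Q n ν m * (Real.Gamma (ν + 1))⁻¹)).mul
    (tendsto_w hν m)).congr' ?_
  filter_upwards [eventually_ge_atTop 1] with N hN
  rw [Pp_coeff' hn hν hN]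

lemma abs_Q_le (n : ℕ) (ν : ℝ) (m : ℕ) :
    |Q n ν m| ≤ n.factorial * Real.exp (|ν| + n) * Real.exp 2 ^ m := by
  have h1 : |Q n ν m| ≤ (2 * m + (|ν| + n)) ^ n := by
    unfold Q
    rw [abs_prod]
    calc (∏ j ∈ range n, |2 * (m : ℝ) + ν - j|) ≤ ∏ _j ∈ range n, (2 * (m : ℝ) + (|ν| + n)) := by
          apply Finset.prod_le_prod
          · intro j _; exact abs_nonneg _
          · intro j hj
            rw [mem_range] at hj
            have hj' : (j : ℝ) < n := by exact_mod_cast hj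
            have hj0 : (0 : ℝ) ≤ j := Nat.cast_nonneg j
            have hm0 : (0 : ℝ) ≤ m := Nat.cast_nonneg m
            have := neg_abs_le ν
            have := le_abs_self ν
            rw [abs_le]
            constructor <;> linarith
      _ = _ := by rw [prod_const, card_range]
  have h2 : (0 : ℝ) ≤ 2 * m + (|ν| + n) := by positivity
  have h3 := Real.pow_div_factorial_le_exp _ h2 n
  have h4 : (0 : ℝ) < n.factorial := by exact_mod_cast n.factorial_pos
  rw [div_le_iff₀ h4] at h3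
  calc |Q n ν m| ≤ _ := h1
    _ ≤ _ := h3
    _ = _ := by
      rw [Real.exp_add, ← Real.exp_nat_mul, mul_comm (m : ℝ) 2]
      ring

lemma w_le {ν : ℝ} (hν : -1 < ν) {N m : ℕ} (hN : 1 ≤ N) (hm : m ≤ N) :
    0 ≤ w ν N m ∧ w ν N m ≤ ((ν + 4) / (ν + 1)) ^ m := by
  have hN0 : (1 : ℝ) ≤ N := by exact_mod_cast hN
  have hfac : ∀ i : ℕ, i < m → 0 ≤ ((ν + 1 + ((N + 1 : ℕ) : ℝ) + i) / (N * (ν + 1 + i))) ∧
      ((ν + 1 + ((N + 1 : ℕ) : ℝ) + i) / (N * (ν + 1 + i))) ≤ (ν + 4) / (ν + 1) := by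
    intro i hi
    have hi0 : (0 : ℝ) ≤ i := Nat.cast_nonneg i
    have hiN : (i : ℝ) + 1 ≤ N := by exact_mod_cast (by omega : i + 1 ≤ N)
    push_cast
    have a1 : 0 < ν + 1 + (i : ℝ) := by linarith
    have a2 : (0 : ℝ) < N * (ν + 1 + i) := by positivity
    constructor
    · apply div_nonneg _ a2.le
      linarith
    · rw [div_le_div_iff₀ a2 (by linarith)]
      have b1 : ν + 1 + ((N : ℝ) + 1) + i ≤ (ν + 4) * N := by nlinarith
      have b2 : ν + 1 ≤ ν + 1 + (i : ℝ) := by linarith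
      calc (ν + 1 + ((N : ℝ) + 1) + i) * (ν + 1) ≤ ((ν + 4) * N) * (ν + 1 + i) := by
            apply mul_le_mul b1 b2 (by linarith)
            have : 0 < ν + 4 := by linarith
            positivity
        _ = _ := by ring
  constructor
  · unfold w
    exact prod_nonneg fun i hi => (hfac i (mem_range.1 hi)).1
  · unfold w
    calc _ ≤ ∏ _i ∈ range m, ((ν + 4) / (ν + 1)) :=
          Finset.prod_le_prod (fun i hi => (hfac i (mem_range.1 hi)).1)
            (fun i hi => (hfac i (mem_range.1 hi)).2)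
      _ = _ := by rw [prod_const, card_range]

lemma bd_Pp {n : ℕ} (hn : 2 ≤ n) {ν : ℝ} (hν : -1 < ν) {N : ℕ} (hN : 1 ≤ N) :
    Bd (Pp n ν N).coeff (n.factorial * Real.exp (|ν| + n) * (Real.Gamma (ν + 1))⁻¹)
      (Real.exp 2 * ((ν + 4) / (ν + 1))) := by
  intro m
  have hg : 0 < (Real.Gamma (ν + 1))⁻¹ := inv_pos.2 (Real.Gamma_pos_of_pos (by linarith))
  have h9 : (0 : ℝ) < m.factorial := by exact_mod_cast m.factorial_pos
  have h10 : 0 < (ν + 4) / (ν + 1) := div_pos (by linarith) (by linarith)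
  have hpos : 0 ≤ ((n.factorial : ℝ) * Real.exp (|ν| + n) * (Real.Gamma (ν + 1))⁻¹) *
      (Real.exp 2 * ((ν + 4) / (ν + 1))) ^ m / m.factorial := by positivity
  by_cases hm : m ≤ N
  · rw [Pp_coeff' hn hν hN, abs_mul, abs_mul, abs_mul, abs_of_pos hg]
    obtain ⟨w0, w1⟩ := w_le hν hN hm
    rw [abs_of_nonneg w0]
    have hc0 : (0 : ℝ) ≤ N.choose m * (1 / (N : ℝ)) ^ m := by positivity
    have hc1 : (N.choose m : ℝ) * (1 / (N : ℝ)) ^ m ≤ 1 / m.factorial := by
      have h := Nat.choose_le_pow_div (α := ℝ) m N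
      have hN0 : (0 : ℝ) < N := by exact_mod_cast hN
      calc (N.choose m : ℝ) * (1 / (N : ℝ)) ^ m ≤ ((N : ℝ) ^ m / m.factorial) *
            (1 / (N : ℝ)) ^ m := by gcongr
        _ = 1 / m.factorial := by
          rw [one_div_pow]
          field_simp
    rw [abs_of_nonneg hc0]
    have hQ := abs_Q_le n ν m
    calc |Q n ν m| * (Real.Gamma (ν + 1))⁻¹ * (N.choose m * (1 / (N : ℝ)) ^ m) * w ν N m
        ≤ (n.factorial * Real.exp (|ν| + n) * Real.exp 2 ^ m) * (Real.Gamma (ν + 1))⁻¹ *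
          (1 / m.factorial) * ((ν + 4) / (ν + 1)) ^ m := by gcongr
      _ = _ := by rw [mul_pow]; ring
  · rw [Pp_coeff hn, Nat.choose_eq_zero_of_lt (by omega)]
    simpa using hpos

/-! ### Part 6: estimates -/

lemma prod_fact (m k : ℕ) :
    (m.factorial : ℝ) * ∏ i ∈ range k, ((m : ℝ) + 1 + i) = (m + k).factorial := by
  induction k with
  | zero => simp
  | succ k ih =>
    rw [prod_range_succ, ← mul_assoc, ih, ← Nat.add_assoc, Nat.factorial_succ]
    push_cast
    ring

lemma numeric (k : ℕ) :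
    (2 * (k : ℝ) + 2) * (2 * k + 3) * (2 * k + 4) * (4 / 15) ^ (k + 2) * 5 ^ k ≤
      (27 / 100) * (105 / 64) * ((k + 2).factorial : ℝ) ^ 2 := by
  induction k with
  | zero => norm_num [Nat.factorial]
  | succ k ih =>
    have hk : (0 : ℝ) ≤ k := Nat.cast_nonneg k
    have e : ((k + 1 + 2).factorial : ℝ) = (k + 3) * (k + 2).factorial := by
      rw [show k + 1 + 2 = (k + 2) + 1 from rfl, Nat.factorial_succ]
      push_cast
      ring
    rw [e]
    push_cast
    have h1 : (4 / 3 : ℝ) * (2 * k + 5) * (2 * k + 6) ≤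
        (k + 3) ^ 2 * (2 * k + 2) * (2 * k + 3) := by
      nlinarith [mul_nonneg hk hk, mul_nonneg (mul_nonneg hk hk) hk,
        mul_nonneg (mul_nonneg hk hk) (mul_nonneg hk hk)]
    have h2 : (0 : ℝ) < (2 * k + 2) * (2 * k + 3) := by positivity
    have h3 : (0 : ℝ) ≤ (2 * (k : ℝ) + 4) * (4 / 15) ^ (k + 2) * 5 ^ k := by positivity
    calc (2 * ((k : ℝ) + 1) + 2) * (2 * (k + 1) + 3) * (2 * (k + 1) + 4) *
          (4 / 15) ^ (k + 1 + 2) * 5 ^ (k + 1)
        = ((4 / 3 : ℝ) * (2 * k + 5) * (2 * k + 6)) *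
            ((2 * (k : ℝ) + 4) * (4 / 15) ^ (k + 2) * 5 ^ k) := by ring
      _ ≤ ((k + 3) ^ 2 * (2 * k + 2) * (2 * k + 3)) *
            ((2 * (k : ℝ) + 4) * (4 / 15) ^ (k + 2) * 5 ^ k) := by gcongr
      _ = (k + 3) ^ 2 * ((2 * (k : ℝ) + 2) * (2 * k + 3) * (2 * k + 4) * (4 / 15) ^ (k + 2) *
            5 ^ k) := by ring
      _ ≤ (k + 3) ^ 2 * ((27 / 100) * (105 / 64) * ((k + 2).factorial : ℝ) ^ 2) := by gcongr
      _ = _ := by ring

section est

variable {n : ℕ} {ν δ : ℝ}

lemma aCoeff_succ (hδ : δ = n - 2 - ν) (h0 : 0 < δ) (h1 : δ < 1 / 8) (hν : -1 < ν) (k : ℕ) :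
    aCoeff ν n (k + 1) = (∏ i ∈ range (k + 1), ((k : ℝ) + 1 + ν + 1 + i)) /
      ((k + 1).factorial * Real.Gamma (1 - δ) * ∏ i ∈ range (2 * k), (1 - δ + i)) := by
  unfold aCoeff
  have hk : (0 : ℝ) ≤ k := Nat.cast_nonneg k
  have e1 := Gamma_prod ((k : ℝ) + 1 + ν + 1) (k + 1) (fun i _ => by
    have : (0 : ℝ) ≤ i := Nat.cast_nonneg i
    linarith)
  have e2 := Gamma_prod (1 - δ) (2 * k) (fun i _ => by
    have : (0 : ℝ) ≤ i := Nat.cast_nonneg i
    linarith)
  have f1 : 2 * ((k + 1 : ℕ) : ℝ) + ν + 1 = (k : ℝ) + 1 + ν + 1 + ((k + 1 : ℕ) : ℝ) := by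
    push_cast; ring
  have f2 : 2 * ((k + 1 : ℕ) : ℝ) + ν - n + 1 = 1 - δ + ((2 * k : ℕ) : ℝ) := by
    rw [hδ]; push_cast; ring
  have f3 : ((k + 1 : ℕ) : ℝ) + ν + 1 = (k : ℝ) + 1 + ν + 1 := by push_cast; ring
  rw [f2, f1, f3, e1, e2]
  have g1 : Real.Gamma ((k : ℝ) + 1 + ν + 1) ≠ 0 := (Real.Gamma_pos_of_pos (by linarith)).ne'
  have g2 : Real.Gamma (1 - δ) ≠ 0 := (Real.Gamma_pos_of_pos (by linarith)).ne'
  have g3 : (0 : ℝ) < ∏ i ∈ range (2 * k), (1 - δ + i) := by
    apply prod_pos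
    intro i _
    have : (0 : ℝ) ≤ i := Nat.cast_nonneg i
    linarith
  have g4 : ((k + 1).factorial : ℝ) ≠ 0 := by exact_mod_cast (k + 1).factorial_ne_zero
  field_simp

lemma aCoeff_zero (hδ : δ = n - 2 - ν) (h0 : 0 < δ) (h1 : δ < 1 / 8) (hν : -1 < ν) :
    aCoeff ν n 0 = δ * (1 + δ) / Real.Gamma (1 - δ) := by
  unfold aCoeff
  have f2 : 2 * ((0 : ℕ) : ℝ) + ν - n + 1 = -1 - δ := by
    rw [hδ]; push_cast; ring
  have f1 : 2 * ((0 : ℕ) : ℝ) + ν + 1 = ν + 1 := by push_cast; ring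
  have f3 : ((0 : ℕ) : ℝ) + ν + 1 = ν + 1 := by push_cast; ring
  rw [f2, f1, f3]
  have g1 : Real.Gamma (ν + 1) ≠ 0 := (Real.Gamma_pos_of_pos (by linarith)).ne'
  have g2 : Real.Gamma (1 - δ) = (-δ) * ((-1 - δ) * Real.Gamma (-1 - δ)) := by
    have a1 : (1 : ℝ) - δ = (-δ) + 1 := by ring
    have a2 : -δ = (-1 - δ) + 1 := by ring
    rw [a1, Real.Gamma_add_one (by linarith)]
    conv_lhs => rw [a2, Real.Gamma_add_one (by linarith)]
    ring
  have g3 : Real.Gamma (1 - δ) ≠ 0 := (Real.Gamma_pos_of_pos (by linarith)).ne'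
  have g4 : Real.Gamma (-1 - δ) ≠ 0 := by
    intro h
    rw [h] at g2
    simp at g2
    exact g3 g2
  have g5 : δ ≠ 0 := h0.ne'
  have g6 : 1 + δ ≠ 0 := by linarith
  have g7 : -1 - δ ≠ 0 := by linarith
  rw [g2]
  simp only [Nat.factorial_zero, Nat.cast_one, one_mul]
  field_simp
  ring

lemma aCoeff_term (hδ : δ = n - 2 - ν) (h0 : 0 < δ) (h1 : δ < 1 / 8) (hν : -(1 / 8) < ν)
    (k : ℕ) :
    aCoeff ν n (k + 2) * (1 / (2 * (ν + 2))) ^ (k + 2) ≤
      (Real.Gamma (1 - δ))⁻¹ * (27 / 100 * (1 / 5) ^ k) := by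
  have hk : (0 : ℝ) ≤ k := Nat.cast_nonneg k
  have hG : 0 < Real.Gamma (1 - δ) := Real.Gamma_pos_of_pos (by linarith)
  have hden : (105 / 64 : ℝ) * (2 * k + 1).factorial ≤
      ∏ i ∈ range (2 * (k + 1)), (1 - δ + (i : ℝ)) := by
    rw [show 2 * (k + 1) = 2 * k + 1 + 1 by ring, prod_range_succ', prod_range_succ']
    have hp := prod_fact 1 (2 * k)
    rw [Nat.factorial_one, Nat.cast_one, one_mul, add_comm 1 (2 * k)] at hp
    rw [← hp]
    have e1 : (∏ i ∈ range (2 * k), ((1 : ℝ) + 1 + i)) ≤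
        ∏ i ∈ range (2 * k), (1 - δ + ((i + 1 + 1 : ℕ) : ℝ)) := by
      apply Finset.prod_le_prod
      · intro i _; positivity
      · intro i _; push_cast; linarith
    have e0 : (0 : ℝ) ≤ ∏ i ∈ range (2 * k), ((1 : ℝ) + 1 + i) :=
      prod_nonneg fun i _ => by positivity
    have e2 : (105 / 64 : ℝ) ≤ (1 - δ + ((0 + 1 : ℕ) : ℝ)) * (1 - δ + ((0 : ℕ) : ℝ)) := by
      push_cast
      nlinarith
    calc (105 / 64 : ℝ) * ∏ i ∈ range (2 * k), ((1 : ℝ) + 1 + i)
        ≤ ((1 - δ + ((0 + 1 : ℕ) : ℝ)) * (1 - δ + ((0 : ℕ) : ℝ))) *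
          ∏ i ∈ range (2 * k), (1 - δ + ((i + 1 + 1 : ℕ) : ℝ)) := by gcongr
      _ = _ := by ring
  have hnum : (∏ i ∈ range (k + 2), ((k : ℝ) + 2 + ν + 1 + i)) * (1 / (2 * (ν + 2))) ^ (k + 2) ≤
      (4 / 15) ^ (k + 2) * (2 * k + 4).factorial / (k + 2).factorial := by
    have e1 : (∏ i ∈ range (k + 2), ((k : ℝ) + 2 + ν + 1 + i)) *
        (1 / (2 * (ν + 2))) ^ (k + 2) =
        ∏ i ∈ range (k + 2), (((k : ℝ) + 2 + ν + 1 + i) * (1 / (2 * (ν + 2)))) := by
      rw [prod_mul_distrib, prod_const, card_range]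
    have e2 : (∏ i ∈ range (k + 2), (((k : ℝ) + 2 + ν + 1 + i) * (1 / (2 * (ν + 2))))) ≤
        ∏ i ∈ range (k + 2), ((4 / 15) * (((k + 2 : ℕ) : ℝ) + 1 + i)) := by
      apply Finset.prod_le_prod
      · intro i _
        have : (0 : ℝ) ≤ i := Nat.cast_nonneg i
        apply mul_nonneg (by linarith)
        apply div_nonneg zero_le_one
        linarith
      · intro i _
        have hi : (0 : ℝ) ≤ i := Nat.cast_nonneg i
        rw [mul_one_div, div_le_iff₀ (by linarith)]
        push_cast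
        nlinarith
    have e3 := prod_fact (k + 2) (k + 2)
    have e4 : (k + 2) + (k + 2) = 2 * k + 4 := by ring
    rw [e4] at e3
    have e5 : (0 : ℝ) < (k + 2).factorial := by exact_mod_cast (k + 2).factorial_pos
    rw [e1]
    refine e2.trans (le_of_eq ?_)
    rw [prod_mul_distrib, prod_const, card_range, ← e3]
    field_simp
  have hs := aCoeff_succ hδ h0 h1 (by linarith) (k + 1)
  rw [show k + 1 + 1 = k + 2 from rfl] at hs
  have hs' : (∏ i ∈ range (k + 2), (((k + 1 : ℕ) : ℝ) + 1 + ν + 1 + i)) =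
      ∏ i ∈ range (k + 2), ((k : ℝ) + 2 + ν + 1 + i) := by
    apply prod_congr rfl
    intro i _
    push_cast
    ring
  rw [hs'] at hs
  have f0 : (0 : ℝ) < (k + 2).factorial := by exact_mod_cast (k + 2).factorial_pos
  have f1 : (0 : ℝ) < (2 * k + 1).factorial := by exact_mod_cast (2 * k + 1).factorial_pos
  have f2 : ((2 * k + 4).factorial : ℝ) =
      (2 * k + 4) * ((2 * k + 3) * ((2 * k + 2) * (2 * k + 1).factorial)) := by
    rw [Nat.factorial_succ, Nat.factorial_succ, Nat.factorial_succ]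
    push_cast
    ring
  have hprodpos : (0 : ℝ) < (105 / 64 : ℝ) * (2 * k + 1).factorial := by positivity
  have hnumk := numeric k
  have h5 : (0 : ℝ) < 5 ^ k := by positivity
  calc aCoeff ν n (k + 2) * (1 / (2 * (ν + 2))) ^ (k + 2)
      = ((∏ i ∈ range (k + 2), ((k : ℝ) + 2 + ν + 1 + i)) * (1 / (2 * (ν + 2))) ^ (k + 2)) /
        ((k + 2).factorial * Real.Gamma (1 - δ) *
          ∏ i ∈ range (2 * (k + 1)), (1 - δ + (i : ℝ))) := by
        rw [hs]; ring
    _ ≤ ((4 / 15) ^ (k + 2) * (2 * k + 4).factorial / (k + 2).factorial) /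
        ((k + 2).factorial * Real.Gamma (1 - δ) * ((105 / 64 : ℝ) * (2 * k + 1).factorial)) := by
        gcongr
    _ = (Real.Gamma (1 - δ))⁻¹ * (((2 * (k : ℝ) + 2) * (2 * k + 3) * (2 * k + 4) *
        (4 / 15) ^ (k + 2) * 5 ^ k) / ((105 / 64) * ((k + 2).factorial : ℝ) ^ 2 * 5 ^ k)) := by
        rw [f2]
        field_simp
    _ ≤ (Real.Gamma (1 - δ))⁻¹ * (((27 / 100) * (105 / 64) * ((k + 2).factorial : ℝ) ^ 2) /
        ((105 / 64) * ((k + 2).factorial : ℝ) ^ 2 * 5 ^ k)) := by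
        gcongr
    _ = _ := by
        rw [one_div_pow]
        field_simp

end est

/-! ### Part 7: assembling -/

section final

variable {n : ℕ} {ν : ℝ}

lemma nonint (h1 : (n : ℝ) - 2 - 1 / 8 < ν) (h2 : ν < n - 2) (m i : ℕ) :
    2 * (m : ℝ) + ν - n + 1 + i ≠ 0 := by
  intro h
  have hz : (0 : ℝ) < ((2 * m + i : ℕ) : ℝ) - 1 ∧ ((2 * m + i : ℕ) : ℝ) - 1 < 1 / 8 := by
    push_cast
    constructor <;> linarith
  have h3 : 1 < 2 * m + i := by
    have : (1 : ℝ) < ((2 * m + i : ℕ) : ℝ) := by linarith [hz.1]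
    exact_mod_cast this
  have h4 : (2 : ℝ) ≤ ((2 * m + i : ℕ) : ℝ) := by exact_mod_cast h3
  linarith [hz.2]

lemma aCoeff_pos (hn : 2 ≤ n) (h1 : (n : ℝ) - 2 - 1 / 8 < ν) (h2 : ν < n - 2) (m : ℕ) :
    0 < aCoeff ν n m := by
  have hn' : (2 : ℝ) ≤ n := by exact_mod_cast hn
  have hν : -1 < ν := by linarith
  have hG : 0 < Real.Gamma (1 - ((n : ℝ) - 2 - ν)) := Real.Gamma_pos_of_pos (by linarith)
  cases m with
  | zero =>
    rw [aCoeff_zero rfl (by linarith) (by linarith) hν]
    have a : 0 < (n : ℝ) - 2 - ν := by linarith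
    positivity
  | succ k =>
    rw [aCoeff_succ rfl (by linarith) (by linarith) hν]
    have hk : (0 : ℝ) ≤ k := Nat.cast_nonneg k
    have b1 : (0 : ℝ) < ∏ i ∈ range (k + 1), ((k : ℝ) + 1 + ν + 1 + i) := by
      apply prod_pos
      intro i _
      have : (0 : ℝ) ≤ i := Nat.cast_nonneg i
      linarith
    have b2 : (0 : ℝ) < ∏ i ∈ range (2 * k), (1 - ((n : ℝ) - 2 - ν) + i) := by
      apply prod_pos
      intro i _
      have : (0 : ℝ) ≤ i := Nat.cast_nonneg i
      linarith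
    positivity

lemma key_ineq (hn : 2 ≤ n) (h1 : (n : ℝ) - 2 - 1 / 8 < ν) (h2 : ν < n - 2)
    {A K : ℝ} (hb : Bd (aCoeff ν n) A K) :
    F (aCoeff ν n) (1 / (2 * (ν + 2))) < 2 * (aCoeff ν n 1 * (1 / (2 * (ν + 2)))) ∧
    aCoeff ν n 1 * (1 / (2 * (ν + 2))) * ((n : ℝ) - 2 - ν) < aCoeff ν n 0 := by
  have hn' : (2 : ℝ) ≤ n := by exact_mod_cast hn
  have hν : -(1 / 8) < ν := by linarith
  set δ : ℝ := n - 2 - ν with hδ
  have d0 : 0 < δ := by linarith
  have d1 : δ < 1 / 8 := by linarith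
  have hG : 0 < Real.Gamma (1 - δ) := Real.Gamma_pos_of_pos (by linarith)
  have hL : 0 < (Real.Gamma (1 - δ))⁻¹ := inv_pos.2 hG
  have e0 : aCoeff ν n 0 = δ * (1 + δ) * (Real.Gamma (1 - δ))⁻¹ := by
    rw [aCoeff_zero hδ d0 d1 (by linarith)]
    rfl
  have e1 : aCoeff ν n 1 * (1 / (2 * (ν + 2))) = (Real.Gamma (1 - δ))⁻¹ / 2 := by
    have := aCoeff_succ hδ d0 d1 (by linarith) 0
    rw [zero_add] at this
    rw [this]
    have hν2 : ν + 2 ≠ 0 := by linarith
    simp
    field_simp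
    ring
  set t : ℝ := 1 / (2 * (ν + 2)) with ht
  have hs := hb.summable t
  have e2 : F (aCoeff ν n) t = aCoeff ν n 0 + aCoeff ν n 1 * t +
      ∑' k : ℕ, aCoeff ν n (k + 2) * t ^ (k + 2) := by
    unfold F
    rw [← hs.sum_add_tsum_nat_add 2, sum_range_succ, sum_range_one]
    simp
  have hs2 : Summable fun k : ℕ => aCoeff ν n (k + 2) * t ^ (k + 2) :=
    (summable_nat_add_iff 2).2 hs
  have hg : Summable fun k : ℕ => (Real.Gamma (1 - δ))⁻¹ * (27 / 100 * (1 / 5 : ℝ) ^ k) :=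
    ((summable_geometric_of_lt_one (by norm_num) (by norm_num)).mul_left _).mul_left _
  have e3 : (∑' k : ℕ, aCoeff ν n (k + 2) * t ^ (k + 2)) ≤
      (Real.Gamma (1 - δ))⁻¹ * (27 / 80) := by
    calc _ ≤ ∑' k : ℕ, (Real.Gamma (1 - δ))⁻¹ * (27 / 100 * (1 / 5 : ℝ) ^ k) :=
          hs2.tsum_le_tsum (fun k => aCoeff_term hδ d0 d1 hν k) hg
      _ = _ := by
        rw [tsum_mul_left, tsum_mul_left, tsum_geometric_of_lt_one (by norm_num) (by norm_num)]
        norm_num
  constructor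
  · rw [e2, e1]
    have : δ * (1 + δ) < 9 / 64 := by nlinarith
    have : δ * (1 + δ) * (Real.Gamma (1 - δ))⁻¹ < 9 / 64 * (Real.Gamma (1 - δ))⁻¹ := by gcongr
    rw [e0]
    linarith
  · rw [e1, e0]
    nlinarith [mul_pos d0 hL]

theorem lim_aCoeff (hn : 2 ≤ n) (h1 : (n : ℝ) - 2 - 1 / 8 < ν) (h2 : ν < n - 2) :
    Lim (aCoeff ν n) := by
  have hn' : (2 : ℝ) ≤ n := by exact_mod_cast hn
  have hν : -1 < ν := by linarith
  have hG : ∀ m : ℕ, Real.Gamma (2 * (m : ℝ) + ν - n + 1) ≠ 0 := by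
    intro m
    apply Real.Gamma_ne_zero
    intro i h
    exact nonint h1 h2 m i (by linarith)
  have hlim := fun m => tendsto_Pp hn hν (fun m i _ => nonint h1 h2 m i) hG m
  set A : ℝ := n.factorial * Real.exp (|ν| + n) * (Real.Gamma (ν + 1))⁻¹ with hA
  set K : ℝ := Real.exp 2 * ((ν + 4) / (ν + 1)) with hK
  have hbd : ∀ N : ℕ, Bd (Pp n ν (N + 1)).coeff A K := fun N => bd_Pp hn hν (by omega)
  have hb : Bd (aCoeff ν n) A K := by
    intro m
    have := ((hlim m).comp (tendsto_add_atTop_nat 1)).abs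
    exact le_of_tendsto' this fun N => hbd N m
  obtain ⟨k1, k2⟩ := key_ineq hn h1 h2 hb
  set t : ℝ := 1 / (2 * (ν + 2)) with ht
  have ht0 : 0 < t := by
    rw [ht]
    have : 0 < ν + 2 := by linarith
    positivity
  set δ : ℝ := n - 2 - ν with hδ
  have d0 : 0 < δ := by linarith
  have d1 : δ < 1 / 8 := by linarith
  -- eventual inequalities
  have te : Tendsto (fun N => (Pp n ν (N + 1)).eval t) atTop (𝓝 (F (aCoeff ν n) t)) := by
    simp_rw [← F_coeff]
    exact tendsto_F hbd (fun m => (hlim m).comp (tendsto_add_atTop_nat 1)) t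
  have tc : ∀ m, Tendsto (fun N => (Pp n ν (N + 1)).coeff m) atTop (𝓝 (aCoeff ν n m)) :=
    fun m => (hlim m).comp (tendsto_add_atTop_nat 1)
  have ev1 : ∀ᶠ N in atTop, (Pp n ν (N + 1)).eval t < 2 * ((Pp n ν (N + 1)).coeff 1 * t) :=
    te.eventually_lt (((tc 1).mul_const t).const_mul 2) k1
  have ev2 : ∀ᶠ N in atTop, (Pp n ν (N + 1)).coeff 1 * t * δ < (Pp n ν (N + 1)).coeff 0 :=
    (((tc 1).mul_const t).mul_const δ).eventually_lt (tc 0) k2
  obtain ⟨N0, hN0⟩ := eventually_atTop.1 (ev1.and ev2)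
  refine ⟨fun N => Pp n ν (N + N0 + 1), fun N => ?_, A, K, fun N => hbd (N + N0), fun m => ?_⟩
  · obtain ⟨q1, q2⟩ := hN0 (N + N0) (by omega)
    set M := N + N0 + 1 with hM
    have hMpos : (0 : ℝ) < M := by
      have : 0 < M := by omega
      exact_mod_cast this
    have hg : 0 < (Real.Gamma (ν + 1))⁻¹ := inv_pos.2 (Real.Gamma_pos_of_pos (by linarith))
    have hbase0 : 0 < (basePoly (Real.Gamma (ν + 1))⁻¹ M).coeff 0 := by
      rw [basePoly_coeff]
      simpa using hg
    have hbasen : ∀ m, 0 ≤ (basePoly (Real.Gamma (ν + 1))⁻¹ M).coeff m := by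
      intro m
      rw [basePoly_coeff]
      positivity
    obtain ⟨g1, g2, g3⟩ := lops_good (fun i => 1 / (ν + 1 + i)) (fun _ => 1) (M + 1) _
      (fun i _ => by
        have : (0 : ℝ) ≤ i := Nat.cast_nonneg i
        have : 0 < ν + 1 + (i : ℝ) := by linarith
        positivity) (fun i _ => one_pos) (basePoly_splits _ _) hbase0 hbasen
    obtain ⟨H1, H2, H3⟩ := lops_good (fun _ => 2) (fun j => ν - j) (n - 2) _
      (fun i _ => two_pos) (fun i hi => by
        have : (i : ℝ) + 3 ≤ n := by exact_mod_cast (by omega : i + 3 ≤ n)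
        linarith) g1 g2 g3
    change (Hp n ν M).Splits at H1
    change 0 < (Hp n ν M).coeff 0 at H2
    change ∀ m, 0 ≤ (Hp n ν M).coeff m at H3
    have H4 : 0 < (Hp n ν M).coeff 1 := by
      rw [Hp_coeff]
      have a1 : (0 : ℝ) < ∏ j ∈ range (n - 2), (2 * ((1 : ℕ) : ℝ) + (ν - j)) := by
        apply prod_pos
        intro j hj
        rw [mem_range] at hj
        have : (j : ℝ) + 3 ≤ n := by exact_mod_cast (by omega : j + 3 ≤ n)
        push_cast
        linarith
      have a2 : (0 : ℝ) < ∏ i ∈ range (M + 1), (((1 : ℕ) : ℝ) / (ν + 1 + i) + 1) := by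
        apply prod_pos
        intro i _
        have : (0 : ℝ) ≤ i := Nat.cast_nonneg i
        have : 0 < ν + 1 + (i : ℝ) := by linarith
        positivity
      rw [Nat.choose_one_right]
      positivity
    have hKs : (Kp n ν M).Splits := lop_splits H1 (roots_neg H2 H3) _ _ two_ne_zero
    have hKc : ∀ m, (Kp n ν M).coeff m = (2 * m + -(1 + δ)) * (Hp n ν M).coeff m := by
      intro m
      unfold Kp
      rw [lop_coeff]
    have hP0 : (Pp n ν M).coeff 0 = -δ * (Kp n ν M).coeff 0 := by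
      unfold Pp
      rw [lop_coeff]
      push_cast
      ring
    have key := criterion hKs (δ := δ) (t := t) d0 (by linarith) ht0
      (by
        rw [hKc]
        push_cast
        nlinarith)
      (by
        rw [hKc]
        push_cast
        have : 0 < 2 * 1 + -(1 + δ) := by linarith
        positivity)
      (by
        intro m hm
        rw [hKc]
        have hm' : (1 : ℝ) ≤ m := by exact_mod_cast hm
        have := H3 m
        have : 0 ≤ 2 * (m : ℝ) + -(1 + δ) := by linarith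
        positivity)
      q1
      (by
        change (Pp n ν M).coeff 1 * t < _
        rw [hP0] at q2
        have : δ * ((Pp n ν M).coeff 1 * t) < δ * (-(Kp n ν M).coeff 0) := by linarith
        exact lt_of_mul_lt_mul_left this d0.le)
    exact key
  · have := (tc m).comp (tendsto_add_atTop_nat N0)
    exact this

end final

/-- Main theorem. -/
theorem result :
    (∀ n : ℕ, 2 ≤ n → ∀ ν : ℝ, (n : ℝ) - 2 - 1 / 8 < ν → ν < n - 2 →
      {c : ℝ | IsFourierCriticalPoint (besselF ν n) c} = ∅) ∧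
    ¬ (∀ (n s : ℕ) (ν : ℝ), 1 ≤ s → (n : ℝ) - 2 * s - 1 < ν → ν < n - 2 * s →
      {c : ℝ | IsFourierCriticalPoint (besselF ν n) c}.encard = s ∧
        ∀ x : ℝ, 0 < x → besselF ν n x ≠ 0) := by
  have main : ∀ n : ℕ, 2 ≤ n → ∀ ν : ℝ, (n : ℝ) - 2 - 1 / 8 < ν → ν < n - 2 →
      {c : ℝ | IsFourierCriticalPoint (besselF ν n) c} = ∅ := by
    intro n hn ν h1 h2
    ext c
    simp only [Set.mem_ofPred_eq, Set.mem_empty_iff_false, iff_false]
    exact no_critical (lim_aCoeff hn h1 h2) (aCoeff_pos hn h1 h2) c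
  refine ⟨main, fun h => ?_⟩
  have h1 := (h 2 1 (-(1 / 16)) le_rfl (by norm_num) (by norm_num)).1
  rw [main 2 le_rfl (-(1 / 16)) (by norm_num) (by norm_num)] at h1
  simp at h1

end Pool.Agent.Results.MP_dd47c1_an.NoCriticalPoint
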